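import Mathlib
import Pool.Agent.Y203.QC.Base
import Pool.Agent.Helper961.Aub.RComp

set_option autoImplicit false

open Set Filter Topology

namespace Pool.Agent.Y203.QC

open Pool.Agent.Aub (mm lam Stk dt stp Sc S1 S2 Qx gT gt cT ct hC hX Dg Ty stg rho mu posn peel cE cF
  DD rb subTy subP subC sub broken)

theorem R02_tf {κ a b ν1 ν2 t t1 t2 m B c : ℝ} (ha : 0 ≤ a) (hb : 0 ≤ b) (h1 : 0 ≤ ν1)
    (h2 : 0 ≤ ν2) (hc : 0 ≤ c)
    (hA : (m - 1/4 - ν1 ≤ max t 0 ∧ ((t1 ≤ max (t - B) 0 + ν1 ∧ t1 ≤ c + 2 * ν1) ∨ κ ≤ a)) ∨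
      (κ ≤ a ∧ (t1 ≤ c + 2 * ν1 ∨ 2 * κ ≤ a)))
    (hB : κ ≤ b ∨ t2 ≤ max t1 0 + ν2) :
    (m - 1/4 - (ν1 + ν2) ≤ max t 0 ∧ ((t2 ≤ max (t - B) 0 + (ν1 + ν2) ∧
      t2 ≤ c + 2 * (ν1 + ν2)) ∨ κ ≤ a + b)) ∨
      (κ ≤ a + b ∧ (t2 ≤ c + 2 * (ν1 + ν2) ∨ 2 * κ ≤ a + b)) := by
  have hm := le_max_right (t - B) 0
  rcases hA with ⟨hA0, ⟨hA1, hA2⟩ | hA⟩ | ⟨hA, hA1 | hA1⟩
  · left
    refine ⟨by linarith, ?_⟩
    rcases hB with hB | hB
    · right; linarith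
    · left
      constructor
      · have h3 : max t1 0 ≤ max (t - B) 0 + ν1 := max_le hA1 (by linarith)
        linarith
      · have h3 : max t1 0 ≤ c + 2 * ν1 := max_le hA2 (by linarith)
        linarith
  · left
    exact ⟨by linarith, Or.inr (by linarith)⟩
  · right
    refine ⟨by linarith, ?_⟩
    rcases hB with hB | hB
    · right; linarith
    · left
      have h3 : max t1 0 ≤ c + 2 * ν1 := max_le hA1 (by linarith)
      linarith
  · right
    exact ⟨by linarith, Or.inr (by linarith)⟩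

theorem R02_ft {κ a b ν1 ν2 t t1 t2 m B c : ℝ} (ha : 0 ≤ a) (hb : 0 ≤ b) (h1 : 0 ≤ ν1)
    (hB0 : 0 ≤ B)
    (hA : κ ≤ a ∨ t1 ≤ max t 0 + ν1)
    (hB : (m - 1/4 - ν2 ≤ max t1 0 ∧ ((t2 ≤ max (t1 - B) 0 + ν2 ∧ t2 ≤ c + 2 * ν2) ∨ κ ≤ b)) ∨
      (κ ≤ b ∧ (t2 ≤ c + 2 * ν2 ∨ 2 * κ ≤ b))) :
    (m - 1/4 - (ν1 + ν2) ≤ max t 0 ∧ ((t2 ≤ max (t - B) 0 + (ν1 + ν2) ∧
      t2 ≤ c + 2 * (ν1 + ν2)) ∨ κ ≤ a + b)) ∨
      (κ ≤ a + b ∧ (t2 ≤ c + 2 * (ν1 + ν2) ∨ 2 * κ ≤ a + b)) := by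
  have hm := le_max_right (t - B) 0
  rcases hB with ⟨hB0, ⟨hB1, hB2⟩ | hB⟩ | ⟨hB, hB1 | hB1⟩
  · rcases hA with hA | hA
    · right
      exact ⟨by linarith, Or.inl (by linarith)⟩
    · left
      have h3 : max t1 0 ≤ max t 0 + ν1 := max_le hA (by linarith [le_max_right t 0])
      refine ⟨by linarith, Or.inl ⟨?_, by linarith⟩⟩
      have h4 : max t 0 ≤ max (t - B) 0 + B :=
        max_le (by linarith [le_max_left (t - B) 0]) (by linarith)
      have h5 : max (t1 - B) 0 ≤ max (t - B) 0 + ν1 := max_le (by linarith) (by linarith)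
      linarith
  · rcases hA with hA | hA
    · right
      exact ⟨by linarith, Or.inr (by linarith)⟩
    · left
      have h3 : max t1 0 ≤ max t 0 + ν1 := max_le hA (by linarith [le_max_right t 0])
      exact ⟨by linarith, Or.inr (by linarith)⟩
  · right
    exact ⟨by linarith, Or.inl (by linarith)⟩
  · right
    exact ⟨by linarith, Or.inr (by linarith)⟩

/-- composition of coordinates -/
theorem Cd_comp {f1 f2 : Fl} (hf : f1 = Fl.n ∨ f2 = Fl.n) {κ a b ν1 ν2 t t1 t2 : ℝ}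
    (ha : 0 ≤ a) (hb : 0 ≤ b) (h1 : 0 ≤ ν1) (h2 : 0 ≤ ν2)
    (hA : Cd f1 κ a ν1 t t1) (hB : Cd f2 κ b ν2 t1 t2) :
    Cd (f1.or f2) κ (a + b) (ν1 + ν2) t t2 := by
  have hbb : (0 : ℝ) ≤ (bb : ℝ) := Nat.cast_nonneg _
  have ht0 := le_max_right t 0
  rcases hf with rfl | rfl
  · have e : Fl.or Fl.n f2 = f2 := rfl
    rw [e]
    have hA' := hA.1 rfl
    cases f2 with
    | n =>
      exact ⟨fun _ => Pool.Agent.Aub.R02_ff ha hb h1 hA' (hB.1 rfl), by simp, by simp⟩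
    | d =>
      exact ⟨by simp, fun _ => R02_ft ha hb h1 hbb hA' (hB.2.1 rfl), by simp⟩
    | c =>
      refine ⟨by simp, by simp, fun _ => ?_⟩
      rcases hB.2.2 rfl with h | ⟨h, h'⟩
      · left; linarith
      · rcases hA' with h3 | h3
        · left; linarith
        · right
          have h4 : max t1 0 ≤ max t 0 + ν1 := max_le h3 (by linarith)
          exact ⟨by linarith, by linarith⟩
  · have e : Fl.or f1 Fl.n = f1 := by cases f1 <;> rfl
    rw [e]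
    have hB' := hB.1 rfl
    cases f1 with
    | n =>
      exact ⟨fun _ => Pool.Agent.Aub.R02_ff ha hb h1 (hA.1 rfl) hB', by simp, by simp⟩
    | d =>
      exact ⟨by simp, fun _ => R02_tf ha hb h1 h2 (by norm_num) (hA.2.1 rfl) hB', by simp⟩
    | c =>
      refine ⟨by simp, by simp, fun _ => ?_⟩
      rcases hA.2.2 rfl with h | ⟨h, h'⟩
      · left; linarith
      · rcases hB' with h3 | h3
        · left; linarith
        · right
          have h4 : max t1 0 ≤ max t 0 + bb + ν1 := max_le h (by linarith)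
          have h5 : max t1 0 ≤ bb + 1/4 + 2 * ν1 := max_le h' (by linarith)
          exact ⟨by linarith, by linarith⟩

/-- TARGET -/
theorem Md_comp {ty : Ty} {p : Fin 3} {ν1 ν2 cr1 cr2 : ℝ} {f1 f2 : Fl} {z z1 z2 : Stk}
    (h1 : Md ty p ν1 cr1 f1 z z1) (h2 : Md ty p ν2 cr2 f2 z1 z2)
    (hd : f1 = Fl.n ∨ f2 = Fl.n) :
    Md ty p (ν1 + ν2) (cr1 + cr2) (f1.or f2) z z2 := by
  obtain ⟨hν1, hb1, hc1, hd1, pd1, hp1, hs1, hC1⟩ := h1
  obtain ⟨hν2, hb2, hc2, hd2, pd2, hp2, hs2, hC2⟩ := h2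
  have hor : f1.or f2 ≠ Fl.n → f1 ≠ Fl.n ∨ f2 ≠ Fl.n := by
    intro h
    by_contra hcon
    push Not at hcon
    rw [hcon.1, hcon.2] at h
    exact h rfl
  have hcre : ((f1.or f2).cre : ℝ) = (f1.cre : ℝ) + (f2.cre : ℝ) := by
    rcases hd with rfl | rfl
    · have e : Fl.or Fl.n f2 = f2 := rfl
      rw [e]
      simp [Fl.cre]
    · have e : Fl.or f1 Fl.n = f1 := by cases f1 <;> rfl
      rw [e]
      simp [Fl.cre]
  refine ⟨by linarith, ?_, ?_, ?_, fun i k => pd1 i k + pd2 i k, ?_, ?_, ?_⟩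
  · intro i
    have e : z2 i 0 - z i 0 = (z1 i 0 - z i 0) + (z2 i 0 - z1 i 0) := by ring
    rw [e]
    exact le_trans (abs_add_le _ _) (add_le_add (hb1 i) (hb2 i))
  · intro i
    rcases hc1 i with h | ⟨h, h'⟩
    · rcases hc2 i with g | ⟨g, g'⟩
      · left
        have e : z2 i 1 - z i 1 = (z1 i 1 - z i 1) + (z2 i 1 - z1 i 1) := by ring
        rw [e]
        exact le_trans (abs_add_le _ _) (add_le_add h g)
      · right
        have := abs_le.1 h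
        constructor <;> linarith [this.1, this.2]
    · right
      constructor <;> linarith
  · intro hdb
    rcases hor hdb with hdb | hdb
    · obtain ⟨e1, e2 | e2⟩ := hd1 hdb
      · exact ⟨e1, Or.inl (by linarith)⟩
      · exact ⟨e1, Or.inr (by linarith)⟩
    · have := abs_le.1 (hb1 p)
      obtain ⟨e1, e2 | e2⟩ := hd2 hdb
      · exact ⟨e1, Or.inl (by linarith [this.1, this.2])⟩
      · exact ⟨e1, Or.inr (by linarith [this.1, this.2])⟩
  · intro i k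
    exact add_nonneg (hp1 i k) (hp2 i k)
  · rw [hcre]
    simp only [Finset.sum_add_distrib]
    linarith
  · intro i k
    have g1 := hC1 i k
    have g2 := hC2 i k
    have q1 := hp1 i k
    have q2 := hp2 i k
    by_cases hik : i = p ∧ k = 0
    · rw [if_pos hik] at g1 g2 ⊢
      exact Cd_comp hd q1 q2 hν1 hν2 g1 g2
    · rw [if_neg hik] at g1 g2 ⊢
      exact Cd_comp (Or.inl rfl) q1 q2 hν1 hν2 g1 g2

end Pool.Agent.Y203.QC
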