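import Mathlib
import Pool.Agent.Y203.QC.Base
import Pool.Agent.Helper961.Aub.RMod

set_option autoImplicit false

open Set Filter Topology

namespace Pool.Agent.Y203.QC

open Pool.Agent.Aub (mm lam Stk dt stp Sc S1 S2 Qx gT gt cT ct hC hX Dg Ty stg rho mu posn peel cE cF
  DD rb subTy subP subC sub broken R03_hC_lip R03_hC_id R03_hX_mono R03_hX_ub R03_hX_lb
  R03_hX_add R03_hX_pos R03_Dg_nonneg R03_Dg_le R03_Dg_mono R03_Dg_zero R03_Dg_top R03_cE R03_cF
  R03_rho R03_sub_dt R03_sub_0 R03_sub_1)

/-- an upper bound of a decoded digit -/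
theorem R03_Dg_ub (μ t : ℝ) (n : ℕ) (h : hX t - 5/8 + μ ≤ n) : Dg μ t ≤ (n : ℤ) := by
  unfold Dg
  apply max_le (by positivity)
  refine (min_le_right _ _).trans ?_
  apply Int.ceil_le.2
  push_cast
  exact h

/-- positive digits come from positive values -/
theorem R03_Dg_pos (μ t : ℝ) (hμ : μ ≤ 1/16) (h : 0 < Dg μ t) : 0 < t ∧ hX t ≤ t := by
  have h1 : 0 < hX t := by
    by_contra hcon
    push Not at hcon
    have := R03_Dg_zero μ t (by linarith)
    omega
  have h2 : 0 < t := by
    by_contra hcon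
    push Not at hcon
    have h3 := R03_hX_mono hcon
    have h4 : hX 0 = 0 := by unfold hX mm; norm_num
    linarith
  refine ⟨h2, ?_⟩
  unfold hX
  exact max_le (by linarith) (min_le_right _ _)

theorem R03_coord {f : Fl} {μ μ' κ w pd ν t t' : ℝ}
    (hμμ : μ = μ' + 1/32) (hμ : μ ≤ 1/16) (hκ : 0 < κ) (hκw : κ ≤ w)
    (hw : MM * κ = w * mm + κ) (hpd : 0 ≤ pd) (hν0 : 0 ≤ ν) (hν : ν < 1/32)
    (hs : f ≠ Fl.n → μ = 1/16 ∧ w * bb = MM)
    (h : Cd f κ pd ν t t') :
    ∃ pd', 0 ≤ pd' ∧ w * (Dg μ' t' : ℝ) + MM * (f.deb : ℝ) + pd' ≤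
        w * (Dg μ t : ℝ) + MM * pd + MM * (f.cre : ℝ) ∧
      Cd Fl.n κ pd' (lam * ν) (hX (lam * (hX t - Dg μ t))) (hX (lam * (hX t' - Dg μ' t'))) := by
  have hMM : (0 : ℝ) < MM := by unfold MM; norm_num
  have hlam : (1 : ℝ) ≤ lam := by unfold lam; norm_num
  have hlam0 : (0 : ℝ) ≤ lam := by linarith
  have hlν : 0 ≤ lam * ν := mul_nonneg hlam0 hν0
  have hw0 : 0 < w := lt_of_lt_of_le hκ hκw
  have hD0 : (0 : ℝ) ≤ (Dg μ t : ℝ) := by exact_mod_cast R03_Dg_nonneg μ t
  have hD'm : (Dg μ' t' : ℝ) ≤ (mm : ℝ) := by exact_mod_cast R03_Dg_le μ' t'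
  have hwD : 0 ≤ w * (Dg μ t : ℝ) := mul_nonneg hw0.le hD0
  have hwD' : w * (Dg μ' t' : ℝ) ≤ w * mm := mul_le_mul_of_nonneg_left hD'm hw0.le
  have hCκ : ∀ x x' : ℝ, Cd Fl.n κ κ (lam * ν) x x' := fun x x' =>
    ⟨fun _ => Or.inl le_rfl, by simp, by simp⟩
  have hC0 : ∀ x x' : ℝ, x' ≤ max x 0 + lam * ν → Cd Fl.n κ 0 (lam * ν) x x' := fun x x' h =>
    ⟨fun _ => Or.inr h, by simp, by simp⟩
  have hpaid : κ ≤ pd → MM * κ ≤ MM * pd := fun h => mul_le_mul_of_nonneg_left h hMM.le
  have hpd0 : 0 ≤ MM * pd := mul_nonneg hMM.le hpd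
  have hmm : (mm : ℝ) = 4096 := by unfold mm; norm_num
  have hbb : (bb : ℝ) = 4095 := by unfold bb; norm_num
  cases f with
  | n =>
    have hd0 : ((Fl.n.deb : ℕ) : ℝ) = 0 := by simp [Fl.deb]
    have hc0 : ((Fl.n.cre : ℕ) : ℝ) = 0 := by simp [Fl.cre]
    rw [hd0, hc0, mul_zero, add_zero, add_zero]
    rcases h.1 rfl with h1 | h1
    · refine ⟨κ, hκ.le, ?_, hCκ _ _⟩
      have h3 := hpaid h1
      linarith
    · have h2 := R03_hX_pos _ _ _ hν0 h1
      have h3 : Dg μ' t' ≤ Dg μ t := R03_Dg_mono μ μ' t t' hμ (by linarith)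
      rcases eq_or_lt_of_le h3 with h4 | h4
      · refine ⟨0, le_rfl, ?_, hC0 _ _ ?_⟩
        · rw [h4]; linarith
        · rw [h4]
          rcases le_total 0 (hX t) with h5 | h5
          · rw [max_eq_left h5] at h2
            have h6 : lam * (hX t' - Dg μ t) ≤ lam * (hX t - Dg μ t) + lam * ν := by
              have := mul_le_mul_of_nonneg_left h2 hlam0
              linarith
            have h7 := (R03_hX_mono h6).trans (R03_hX_add _ _ hlν)
            have h8 := le_max_left (hX (lam * (hX t - Dg μ t))) 0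
            linarith
          · rw [max_eq_right h5] at h2
            have h6 : Dg μ t = 0 := R03_Dg_zero μ t (by linarith)
            rw [h6]
            push_cast
            rw [sub_zero]
            have h7 : lam * hX t' ≤ 0 + lam * ν := by
              have := mul_le_mul_of_nonneg_left h2 hlam0
              linarith
            have h8 := (R03_hX_mono h7).trans (R03_hX_add _ _ hlν)
            have h9 : hX 0 = 0 := by unfold hX mm; norm_num
            have h10 := le_max_right (hX (lam * (hX t - 0))) 0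
            linarith
      · refine ⟨κ, hκ.le, ?_, hCκ _ _⟩
        have h5 : (Dg μ' t' : ℝ) + 1 ≤ (Dg μ t : ℝ) := by exact_mod_cast h4
        have h6 := mul_le_mul_of_nonneg_left h5 hw0.le
        linarith
  | d =>
    obtain ⟨hμ1, hwM⟩ := hs (by simp)
    have hd1 : ((Fl.d.deb : ℕ) : ℝ) = 1 := by simp [Fl.deb]
    have hc0 : ((Fl.d.cre : ℕ) : ℝ) = 0 := by simp [Fl.cre]
    rw [hd1, hc0, mul_zero, mul_one, add_zero]
    have hwm : w * (mm : ℝ) = MM + w := by
      have : (mm : ℝ) = bb + 1 := by rw [hmm, hbb]; norm_num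
      rw [this, mul_add, hwM, mul_one]
    have hone : t' ≤ 1 + 1/4 + 2 * ν → Dg μ' t' ≤ 1 := by
      intro ht'
      have h1 : hX t' ≤ 1 + 5/16 := by
        have h2 := R03_hX_mono (show t' ≤ 1 + 5/16 by linarith)
        have h3 : hX (1 + 5/16) = 1 + 5/16 := by unfold hX mm; norm_num
        linarith
      have := R03_Dg_ub μ' t' 1 (by push_cast; linarith)
      exact_mod_cast this
    have honeR : t' ≤ 1 + 1/4 + 2 * ν → w * (Dg μ' t' : ℝ) ≤ w := by
      intro ht'
      have h1 : (Dg μ' t' : ℝ) ≤ 1 := by exact_mod_cast hone ht'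
      have := mul_le_mul_of_nonneg_left h1 hw0.le
      linarith
    rcases h.2.1 rfl with ⟨h1, h2⟩ | ⟨h1, h2⟩
    · have ht0 : (mm : ℝ) - 1/4 - ν ≤ t := by
        rcases le_total t 0 with ht | ht
        · rw [max_eq_right ht] at h1
          linarith
        · rwa [max_eq_left ht] at h1
      have hXt : (mm : ℝ) - 1/4 - ν ≤ hX t := by
        unfold hX
        apply le_max_of_le_right
        apply le_min _ ht0
        linarith
      have hD : Dg μ t = (mm : ℤ) := by
        apply R03_Dg_top
        rw [hμ1]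
        linarith
      have hDR : (Dg μ t : ℝ) = (mm : ℝ) := by rw [hD]; push_cast; rfl
      rcases h2 with ⟨h2, h3⟩ | h2
      · have hD'1 := hone h3
        have hD'0 := R03_Dg_nonneg μ' t'
        rcases eq_or_lt_of_le hD'1 with hD' | hD'
        · refine ⟨0, le_rfl, ?_, hC0 _ _ ?_⟩
          · rw [hDR, hD', hwm]
            push_cast
            linarith
          · rw [hDR, hD']
            push_cast
            obtain ⟨h5, h6⟩ := R03_Dg_pos μ' t' (by linarith) (by omega)
            have h4 : hX t' - 1 ≤ t - mm + ν := by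
              rw [max_eq_left (by linarith)] at h2
              linarith
            rcases le_total t ((mm : ℝ) + 1/2) with ht | ht
            · have hXt2 : hX t = t := by
                unfold hX
                rw [min_eq_right ht, max_eq_right (by linarith)]
              rw [hXt2]
              have h7 : lam * (hX t' - 1) ≤ lam * (t - mm) + lam * ν := by
                have := mul_le_mul_of_nonneg_left h4 hlam0
                linarith
              have h8 := (R03_hX_mono h7).trans (R03_hX_add _ _ hlν)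
              have h9 := le_max_left (hX (lam * (t - mm))) 0
              linarith
            · have hXt2 : hX t = (mm : ℝ) + 1/2 := by
                unfold hX
                rw [min_eq_left ht, max_eq_right (by linarith)]
              rw [hXt2]
              have h5 : hX (lam * ((mm : ℝ) + 1/2 - mm)) = (mm : ℝ) + 1/2 := by
                unfold hX lam
                rw [min_eq_left (by rw [hmm]; norm_num), max_eq_right (by linarith)]
              rw [h5]
              have h6 := R03_hX_ub (lam * (hX t' - 1))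
              have h7 := le_max_left ((mm : ℝ) + 1/2) 0
              linarith
        · have hD'' : Dg μ' t' = 0 := by omega
          refine ⟨κ, hκ.le, ?_, hCκ _ _⟩
          rw [hDR, hD'', hwm]
          push_cast
          linarith
      · refine ⟨κ, hκ.le, ?_, hCκ _ _⟩
        have h3 := hpaid h2
        rw [hDR]
        linarith
    · have h3 := hpaid h1
      refine ⟨κ, hκ.le, ?_, hCκ _ _⟩
      rcases h2 with h2 | h2
      · have := honeR h2
        linarith
      · have h4 : MM * (2 * κ) ≤ MM * pd := mul_le_mul_of_nonneg_left h2 hMM.le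
        linarith
  | c =>
    obtain ⟨hμ1, hwM⟩ := hs (by simp)
    have hd0 : ((Fl.c.deb : ℕ) : ℝ) = 0 := by simp [Fl.deb]
    have hc1 : ((Fl.c.cre : ℕ) : ℝ) = 1 := by simp [Fl.cre]
    rw [hd0, hc1, mul_zero, mul_one, add_zero]
    have hwm : w * (mm : ℝ) = MM + w := by
      have : (mm : ℝ) = bb + 1 := by rw [hmm, hbb]; norm_num
      rw [this, mul_add, hwM, mul_one]
    rcases h.2.2 rfl with h1 | ⟨h1, h2⟩
    · refine ⟨κ, hκ.le, ?_, hCκ _ _⟩
      have h3 := hpaid h1
      linarith
    · have hD'b : Dg μ' t' ≤ (bb : ℤ) := by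
        have h3 : hX t' ≤ bb + 5/16 := by
          have h4 := R03_hX_mono (show t' ≤ bb + 5/16 by linarith)
          have h5 : hX ((bb : ℝ) + 5/16) = bb + 5/16 := by unfold hX mm bb; norm_num
          linarith
        exact R03_Dg_ub μ' t' bb (by linarith)
      have hDn := R03_Dg_nonneg μ t
      by_cases hcase : Dg μ' t' = (bb : ℤ) ∧ Dg μ t = 0
      · obtain ⟨hD', hD⟩ := hcase
        refine ⟨0, le_rfl, ?_, hC0 _ _ ?_⟩
        · rw [hD', hD]
          push_cast
          linarith
        · rw [hD', hD]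
          push_cast
          rw [sub_zero]
          have hbpos : (0 : ℤ) < (bb : ℤ) := by unfold bb; norm_num
          obtain ⟨h5, h6⟩ := R03_Dg_pos μ' t' (by linarith) (by rw [hD']; exact hbpos)
          have h7 : hX t ≤ 9/16 := by
            by_contra hcon
            push Not at hcon
            have h8 : (0 : ℤ) < ⌈hX t - 5/8 + μ⌉ := by
              apply Int.ceil_pos.2
              linarith
            have h9 : 0 < Dg μ t := by
              unfold Dg
              apply lt_max_of_lt_right
              apply lt_min _ h8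
              unfold mm; norm_num
            omega
          have h8 : max t 0 ≤ max (hX t) 0 := by
            apply max_le _ (le_max_right _ _)
            rcases le_total t ((mm : ℝ) + 1/2) with ht | ht
            · refine le_trans ?_ (le_max_left _ _)
              unfold hX
              rw [min_eq_right ht]
              exact le_max_right _ _
            · exfalso
              have h9 := R03_hX_mono ht
              have h10 : hX ((mm : ℝ) + 1/2) = mm + 1/2 := by unfold hX mm; norm_num
              linarith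
          have h9 : hX t' - bb ≤ max (hX t) 0 + ν := by linarith
          apply R03_hX_pos _ _ _ hlν
          have h10 := mul_le_mul_of_nonneg_left h9 hlam0
          have h11 : lam * (max (hX t) 0 + ν) = max (lam * hX t) 0 + lam * ν := by
            rw [mul_add, mul_max_of_nonneg _ _ hlam0, mul_zero]
          linarith
      · refine ⟨κ, hκ.le, ?_, hCκ _ _⟩
        have h3 : Dg μ' t' + 1 ≤ (bb : ℤ) + Dg μ t := by
          by_contra hcon
          apply hcase
          constructor <;> omega
        have h4 : (Dg μ' t' : ℝ) + 1 ≤ (bb : ℝ) + (Dg μ t : ℝ) := by exact_mod_cast h3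
        have h5 := mul_le_mul_of_nonneg_left h4 hw0.le
        rw [mul_add, mul_add, hwM, mul_one] at h5
        linarith

/-- constants -/
theorem R03_kap (k : Fin 3) : 0 < kap k ∧ kap k ≤ (bb : ℝ) ^ (2 - k.1) ∧
    MM * kap k = (bb : ℝ) ^ (2 - k.1) * mm + kap k := by
  unfold kap mm MM bb
  fin_cases k <;> norm_num

theorem R03_Vz (g : Fin 3 → ℤ) : Vz g = ∑ k : Fin 3, (bb : ℝ) ^ (2 - k.1) * (g k : ℝ) := by
  unfold Vz
  rw [Fin.sum_univ_three]
  norm_num

/-- TARGET -/
theorem mod_step {δ : Fin 3} (hδ : δ ≠ 0) {ty : Ty} {p : Fin 3} {ν cr : ℝ} {f : Fl}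
    {z z' : Stk} (h : Md ty p ν cr f z z') (hν : ν < 1/32) {β : ℝ}
    (hb : rb ty false (posn δ ty p) z = some β) :
    rb ty true (posn δ ty p) z' = some β ∧
    Vz (DD ty true (posn δ ty p) z') + MM * f.deb
      ≤ Vz (DD ty false (posn δ ty p) z) + MM * cr ∧
    (¬ broken ty false (posn δ ty p) β z →
      ¬ broken ty true (posn δ ty p) β z' ∧
      ∃ cr', Md (subTy ty β) (subP δ ty p) (lam * ν) cr' Fl.n
          (sub δ ty false p β z) (sub δ ty true p β z') ∧
        Vz (DD ty true (posn δ ty p) z') + MM * f.deb + cr'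
          ≤ Vz (DD ty false (posn δ ty p) z) + MM * cr) := by
  obtain ⟨hν0, hb0, hc, hdb, pd, hpd0, hpdcr, hCd⟩ := h
  obtain ⟨hρ, hμ, hμ1, hρ0, hρ1⟩ := R03_rho ty
  have hMM : (0 : ℝ) < MM := by unfold MM; norm_num
  have hMM1 : (1 : ℝ) ≤ MM := by unfold MM; norm_num
  have hlam : (1 : ℝ) ≤ lam := by unfold lam; norm_num
  have hlam0 : (0 : ℝ) ≤ lam := by linarith
  have hlν : 0 ≤ lam * ν := mul_nonneg hlam0 hν0
  have hνl : ν ≤ lam * ν := by nlinarith
  obtain ⟨q, hq⟩ : ∃ q, q = posn δ ty p := ⟨_, rfl⟩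
  -- the bit
  have hrb : rb ty true (posn δ ty p) z' = some β := by
    rw [← hq] at hb ⊢
    have h1 := abs_le.1 (hb0 q)
    unfold rb at hb ⊢
    split_ifs at hb with h2 h3
    · have h4 : z' q 0 ≤ rho ty true := by linarith
      rw [if_pos h4]; exact hb
    · have h4 : 1 - rho ty true ≤ z' q 0 := by linarith
      have h5 : ¬ z' q 0 ≤ rho ty true := by intro h6; linarith
      rw [if_neg h5, if_pos h4]; exact hb
  -- the debit sits at the top of the stack `q`
  have hdbq : f ≠ Fl.n → p = q ∧ mu ty false = 1/16 := by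
    intro h1
    obtain ⟨h2, _⟩ := hdb h1
    subst h2
    refine ⟨?_, ?_⟩
    · rw [hq]; simp [posn]
    · simp only [mu, stg]; norm_num
  -- the coordinates
  have hco : ∀ i k : Fin 3, ∃ e : ℝ, 0 ≤ e ∧
      (i = q → (bb : ℝ) ^ (2 - k.1) * (DD ty true q z' k : ℝ) +
        (if k = 0 then MM * (f.deb : ℝ) else 0) + e ≤
        (bb : ℝ) ^ (2 - k.1) * (DD ty false q z k : ℝ) + MM * pd i k +
        (if k = 0 then MM * (f.cre : ℝ) else 0)) ∧
      (i ≠ q → e ≤ MM * pd i k) ∧
      Cd Fl.n (kap k) e (lam * ν) (sub δ ty false p β z i (dt k))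
        (sub δ ty true p β z' i (dt k)) := by
    intro i k
    obtain ⟨hk0, hk1, hk2⟩ := R03_kap k
    by_cases hi : i = q
    · obtain ⟨g, hg⟩ : ∃ g, g = (if i = p ∧ k = 0 then f else Fl.n) := ⟨_, rfl⟩
      have hs : (g ≠ Fl.n → mu ty false = 1/16 ∧ (bb : ℝ) ^ (2 - k.1) * bb = MM) ∧
          (if k = 0 then MM * (f.deb : ℝ) else 0) = MM * (g.deb : ℝ) ∧
          (if k = 0 then MM * (f.cre : ℝ) else 0) = MM * (g.cre : ℝ) := by
        by_cases hf : f = Fl.n
        · have hgn : g = Fl.n := by
            rw [hg, hf]; simp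
          rw [hgn, hf]
          refine ⟨fun h => absurd rfl h, ?_, ?_⟩
          · simp [Fl.deb]
          · simp [Fl.cre]
        · obtain ⟨h1, h2⟩ := hdbq hf
          by_cases hk : k = 0
          · have hgf : g = f := by
              rw [hg, if_pos ⟨by rw [hi, h1], hk⟩]
            rw [hgf, if_pos hk, if_pos hk]
            refine ⟨fun _ => ⟨h2, ?_⟩, rfl, rfl⟩
            rw [hk]; unfold bb MM; norm_num
          · have hgn : g = Fl.n := by
              rw [hg, if_neg fun h => hk h.2]
            rw [hgn, if_neg hk, if_neg hk]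
            refine ⟨fun h => absurd rfl h, ?_, ?_⟩
            · simp [Fl.deb]
            · simp [Fl.cre]
      have hCdg := hCd i k
      rw [← hg] at hCdg
      obtain ⟨e, he0, he1, he2⟩ := R03_coord hμ hμ1 hk0 hk1 hk2 (hpd0 i k) hν0 hν hs.1 hCdg
      refine ⟨e, he0, ?_, fun h => absurd hi h, ?_⟩
      · intro _
        rw [hs.2.1, hs.2.2]
        rw [hi] at he1 ⊢
        exact he1
      · rw [R03_sub_dt, R03_sub_dt, ← hq, if_pos hi, if_pos hi]
        rw [hi] at he2
        exact he2
    · refine ⟨pd i k, hpd0 i k, fun h => absurd h hi, fun _ => ?_, ?_⟩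
      · have := hpd0 i k
        nlinarith
      · have hns : (if i = p ∧ k = 0 then f else Fl.n) = Fl.n := by
          by_cases hf : f = Fl.n
          · rw [hf]; simp
          · rw [if_neg]
            rintro ⟨h2, _⟩
            apply hi
            rw [h2]; exact (hdbq hf).1
        have hCdi := hCd i k
        rw [hns] at hCdi
        rw [R03_sub_dt, R03_sub_dt, ← hq, if_neg hi, if_neg hi]
        refine ⟨fun _ => ?_, by simp, by simp⟩
        rcases hCdi.1 rfl with h1 | h1
        · exact Or.inl h1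
        · right
          have := R03_hX_pos _ _ _ hν0 h1
          linarith
  choose e he0 he1 he2 he3 using hco
  -- the total
  have htot : Vz (DD ty true (posn δ ty p) z') + MM * f.deb + ∑ i, ∑ k, e i k
      ≤ Vz (DD ty false (posn δ ty p) z) + MM * cr := by
    rw [← hq]
    have h1 : ∀ i, ∑ k, e i k + (if i = q then
        (Vz (DD ty true q z') + MM * f.deb - Vz (DD ty false q z) - MM * f.cre) else 0) ≤
        MM * ∑ k, pd i k := by
      intro i
      by_cases hi : i = q
      · rw [if_pos hi, R03_Vz, R03_Vz, Finset.mul_sum]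
        have h2 := fun k => he1 i k hi
        rw [Fin.sum_univ_three, Fin.sum_univ_three, Fin.sum_univ_three, Fin.sum_univ_three]
        have h3 := h2 0
        have h4 := h2 1
        have h5 := h2 2
        rw [if_pos rfl, if_pos rfl] at h3
        rw [if_neg (by decide), if_neg (by decide)] at h4 h5
        linarith
      · rw [if_neg hi, add_zero, Finset.mul_sum]
        exact Finset.sum_le_sum fun k _ => he2 i k hi
    have h2 := Finset.sum_le_sum (fun i (_ : i ∈ Finset.univ) => h1 i)
    rw [Finset.sum_add_distrib, ← Finset.mul_sum, Finset.sum_ite_eq' Finset.univ q,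
      if_pos (Finset.mem_univ _)] at h2
    have h3 := mul_le_mul_of_nonneg_left hpdcr hMM.le
    rw [mul_add] at h3
    linarith
  have hesum : 0 ≤ ∑ i, ∑ k, e i k :=
    Finset.sum_nonneg fun i _ => Finset.sum_nonneg fun k _ => he0 i k
  refine ⟨hrb, by linarith, ?_⟩
  intro hbr
  rw [← hq] at hbr
  refine ⟨?_, ∑ i, ∑ k, e i k, ⟨hlν, ?_, ?_, fun h => absurd rfl h, e, he0, ?_, ?_⟩, htot⟩
  · rw [← hq]
    rintro ⟨h1, h2, h3⟩
    apply h3
    have h4 : z q 1 ≤ rho ty false := by
      by_contra h5
      exact hbr ⟨h1, h2, h5⟩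
    rcases hc q with h5 | h5
    · have := abs_le.1 h5
      linarith
    · exfalso
      linarith [h5.1]
  · intro i
    rw [R03_sub_0, R03_sub_0, ← hq]
    by_cases hi : i = q
    · rw [if_pos hi, if_pos hi]
      refine (R03_hC_lip _ _).trans ?_
      rw [← mul_sub, abs_mul, abs_of_nonneg hlam0]
      apply mul_le_mul_of_nonneg_left _ hlam0
      have h8 : hC (z' q 0) - β - (hC (z q 0) - β) = hC (z' q 0) - hC (z q 0) := by ring
      rw [h8]
      exact (R03_hC_lip _ _).trans (hb0 q)
    · rw [if_neg hi, if_neg hi]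
      exact ((R03_hC_lip _ _).trans (hb0 i)).trans hνl
  · intro i
    rw [R03_sub_1, R03_sub_1, ← hq]
    by_cases hi : i = q
    · rw [if_pos hi, if_pos hi]
      unfold subC
      by_cases h1 : ty = Ty.F ∧ β = 1
      · rw [if_pos h1, if_pos h1]
        exact R03_cF hρ0 hρ1 hρ hν0 hν (hc q)
      · rw [if_neg h1, if_neg h1]
        exact R03_cE hρ0 hρ1 hρ hν0 hν (hc q)
    · rw [if_neg hi, if_neg hi]
      rcases hc i with h1 | h1
      · left
        exact ((R03_hC_lip _ _).trans h1).trans hνl
      · right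
        rw [R03_hC_id (by linarith [h1.1]) (by linarith [h1.2])]
        constructor <;> linarith [h1.1, h1.2]
  · simp [Fl.cre]
  · intro i k
    have h1 : (if i = subP δ ty p ∧ k = 0 then Fl.n else Fl.n) = Fl.n := by simp
    rw [h1]
    exact he3 i k

end Pool.Agent.Y203.QC
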