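import Mathlib
import Pool.Agent.Y203.QC.Base
import Pool.Agent.Helper961.Aub.RUU

set_option autoImplicit false

open Set Filter Topology

namespace Pool.Agent.Y203.QC

open Pool.Agent.Aub (mm lam Stk dt stp Sc S1 S2 Qx gT gt cT ct hC hX Dg Ty stg rho mu posn peel cE cF
  DD rb subTy subP subC sub broken)

theorem R01_Vz (ty : Ty) (post : Bool) (q : Fin 3) (z : Stk) :
    0 ≤ Vz (DD ty post q z) ∧ Vz (DD ty post q z) ≤ 4096 ^ 3 + 4096 ^ 2 + 4096 := by
  have h0 := Pool.Agent.Aub.R01_Dg (mu ty post) (z q (dt 0))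
  have h1 := Pool.Agent.Aub.R01_Dg (mu ty post) (z q (dt 1))
  have h2 := Pool.Agent.Aub.R01_Dg (mu ty post) (z q (dt 2))
  have e : Vz (DD ty post q z) = 4095 ^ 2 * (Dg (mu ty post) (z q (dt 0)) : ℝ) +
      4095 * (Dg (mu ty post) (z q (dt 1)) : ℝ) + (Dg (mu ty post) (z q (dt 2)) : ℝ) := by
    unfold Vz DD bb
    norm_num
  rw [e]
  constructor
  · linarith [h0.1, h1.1, h2.1]
  · linarith [h0.2, h1.2, h2.2]

theorem R01_step (x y : ℝ) (hx0 : 0 ≤ x) (hx : x ≤ 4096 ^ 3 + 4096 ^ 2 + 4096) (hy0 : 0 ≤ y)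
    (hy : y ≤ 2) : 0 ≤ (x + y) / MM ∧ (x + y) / MM ≤ 2 := by
  have hMM : (0 : ℝ) < MM := by unfold MM; norm_num
  constructor
  · positivity
  · rw [div_le_iff₀ hMM]
    unfold MM
    norm_num at hx
    linarith

theorem R01_both (N : ℕ) : ∀ post δ ty p z, 0 ≤ UU N post δ ty p z ∧ UU N post δ ty p z ≤ 2 := by
  induction N with
  | zero =>
    intro post δ ty p z
    unfold UU
    norm_num
  | succ N ih =>
    intro post δ ty p z
    unfold UU
    split
    · norm_num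
    · have hV := R01_Vz ty post (posn δ ty p) z
      split_ifs
      · exact R01_step _ _ hV.1 hV.2 (by norm_num) le_rfl
      · exact R01_step _ _ hV.1 hV.2 (ih _ _ _ _ _).1 (ih _ _ _ _ _).2

/-- TARGET -/
theorem UU_nonneg (N : ℕ) : ∀ post δ ty p z, 0 ≤ UU N post δ ty p z :=
  fun post δ ty p z => (R01_both N post δ ty p z).1

/-- TARGET -/
theorem UU_le (N : ℕ) : ∀ post δ ty p z, UU N post δ ty p z ≤ 2 :=
  fun post δ ty p z => (R01_both N post δ ty p z).2

end Pool.Agent.Y203.QC
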